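import Mathlib
import Pool.Agent.H76EW.C

set_option autoImplicit false

/-!
# The effective weight of a numerical semigroup: the maximum for given genus and given number of
gaps between the multiplicity and its double.
-/

namespace Pool.Agent.Results.MP_7689c7_co.TwoParameterMaximum

/-- A numerical semigroup: a set of natural numbers containing `0`, closed under addition, with
finite complement. -/
structure IsNumSemigroup (S : Set ℕ) : Prop where
  zero_mem : 0 ∈ S
  add_mem : ∀ x ∈ S, ∀ y ∈ S, x + y ∈ S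
  finite_compl : Sᶜ.Finite

/-- The genus: the number of gaps (elements of the complement). -/
noncomputable def genus (S : Set ℕ) : ℕ := Sᶜ.ncard

/-- The minimal generators: the nonzero elements which are not a sum of two nonzero elements. -/
def minGens (S : Set ℕ) : Set ℕ :=
  {x | x ∈ S ∧ x ≠ 0 ∧ ∀ y ∈ S, ∀ z ∈ S, y ≠ 0 → z ≠ 0 → y + z ≠ x}

/-- The effective weight: the number of pairs (minimal generator, larger gap). -/
noncomputable def ew (S : Set ℕ) : ℕ :=
  {p : ℕ × ℕ | p.1 ∈ minGens S ∧ p.2 ∉ S ∧ p.1 < p.2}.ncard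

/-- The multiplicity: the smallest nonzero element. -/
noncomputable def mult (S : Set ℕ) : ℕ := sInf {x | x ∈ S ∧ x ≠ 0}

/-- The number of gaps between the multiplicity and its double. -/
noncomputable def beta (S : Set ℕ) : ℕ := {y | y ∉ S ∧ mult S < y ∧ y < 2 * mult S}.ncard

section transfer

open Pool.Agent.Helper181

/-- the nonzero elements -/
def pos (S : Set ℕ) : Set ℕ := {x | x ∈ S ∧ x ≠ 0}

lemma gaps_pos {S : Set ℕ} (h : IsNumSemigroup S) : EffDefs.gaps (pos S) = Sᶜ := by
  ext y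
  constructor
  · rintro ⟨h1, h2⟩ h3
    exact h2 ⟨h3, by omega⟩
  · intro h1
    have h2 : y ≠ 0 := fun h' => h1 (h' ▸ h.zero_mem)
    exact ⟨by omega, fun h3 => h1 h3.1⟩

lemma semigroup_pos {S : Set ℕ} (h : IsNumSemigroup S) : EffDefs.IsNumericalSemigroup (pos S) := by
  refine ⟨?_, ?_, ?_⟩
  · rintro x ⟨_, h2⟩
    omega
  · rintro x ⟨h1, h2⟩ y ⟨h3, h4⟩
    exact ⟨h.add_mem x h1 y h3, by omega⟩
  · rw [gaps_pos h]
    exact h.finite_compl

lemma irr_pos (S : Set ℕ) : EffDefs.irreducibles (pos S) = minGens S := by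
  ext x
  constructor
  · rintro ⟨⟨h1, h2⟩, h3⟩
    exact ⟨h1, h2, fun y hy z hz hy0 hz0 h4 => h3 y ⟨hy, hy0⟩ z ⟨hz, hz0⟩ h4.symm⟩
  · rintro ⟨h1, h2, h3⟩
    exact ⟨⟨h1, h2⟩, fun y hy z hz h4 => h3 y hy.1 z hz.1 hy.2 hz.2 h4.symm⟩

lemma genus_pos {S : Set ℕ} (h : IsNumSemigroup S) : EffDefs.genus (pos S) = genus S := by
  rw [EffDefs.genus, gaps_pos h, genus]

lemma ew_pos {S : Set ℕ} (h : IsNumSemigroup S) : EffDefs.effWeight (pos S) = ew S := by
  rw [EffDefs.effWeight, gaps_pos h, irr_pos, ew]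
  rfl

lemma mult_eq {S : Set ℕ} {a F : ℕ} (c : Eff.Ctx (pos S) a F) : mult S = a := by
  have h1 : a ∈ pos S := c.amem
  have h2 : mult S ∈ pos S := Nat.sInf_mem ⟨a, h1⟩
  have h3 : mult S ≤ a := Nat.sInf_le h1
  have h4 := c.amin _ h2
  omega

lemma beta_eq {S : Set ℕ} {a F : ℕ} (c : Eff.Ctx (pos S) a F) :
    beta S = (Eff.Qf (pos S) a).card := by
  have ha := c.apos
  rw [beta, mult_eq c]
  have h1 : {y | y ∉ S ∧ a < y ∧ y < 2 * a} = ↑((Eff.Qf (pos S) a).image (fun p => a + p)) := by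
    ext y
    rw [Finset.mem_coe, Finset.mem_image]
    constructor
    · rintro ⟨h1, h2, h3⟩
      refine ⟨y - a, Eff.mem_Qf.2 ⟨by omega, ?_⟩, by omega⟩
      rw [show a + (y - a) = y by omega]
      exact fun h4 => h1 h4.1
    · rintro ⟨p, hp, rfl⟩
      rw [Eff.mem_Qf] at hp
      have h4 : p ≠ 0 := by
        rintro rfl
        exact hp.2 c.amem
      exact ⟨fun h5 => hp.2 ⟨h5, by omega⟩, by omega, by omega⟩
  rw [h1, Set.ncard_coe_finset, Finset.card_image_of_injective _ (fun x y h => by simpa using h)]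

/-- The inequality. -/
lemma bound {S : Set ℕ} (h : IsNumSemigroup S) :
    2 * beta S ≤ genus S ∧ ew S ≤ beta S * (genus S + 1 - 2 * beta S) := by
  rcases Set.eq_empty_or_nonempty (EffDefs.gaps (pos S)) with he | hne
  · have hc : Sᶜ = ∅ := by rw [← gaps_pos h, he]
    have hall : ∀ y, y ∈ S := by
      intro y
      by_contra hy
      have : y ∈ Sᶜ := hy
      rw [hc] at this
      exact this
    have h1 : beta S = 0 := by
      rw [beta]
      have : {y | y ∉ S ∧ mult S < y ∧ y < 2 * mult S} = ∅ := by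
        ext y
        simp [hall y]
      rw [this, Set.ncard_empty]
    have h2 : ew S = 0 := by
      rw [ew]
      have : {p : ℕ × ℕ | p.1 ∈ minGens S ∧ p.2 ∉ S ∧ p.1 < p.2} = ∅ := by
        ext p
        simp [hall p.2]
      rw [this, Set.ncard_empty]
    rw [h1, h2]
    simp
  · obtain ⟨a, F, c⟩ := Eff.exists_ctx (semigroup_pos h) hne
    have h1 := Pool.Agent.H76EW.refined c
    have h2 := c.tt_eq
    have h3 := c.genus_eq
    have h4 := Eff.card_PQ (pos S) a
    have h5 : 0 < (Eff.Pf (pos S) a).card := Finset.card_pos.2 ⟨0, c.zero_mem_Pf⟩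
    have h6 := Eff.genus_ctx c
    have h7 := Eff.weight_ctx c
    rw [genus_pos h] at h6
    rw [ew_pos h] at h7
    rw [beta_eq c, h7, h6]
    refine ⟨by omega, ?_⟩
    rw [show (Eff.Gp (pos S) F).card + 1 - 2 * (Eff.Qf (pos S) a).card =
      (Eff.Pf (pos S) a).card + Eff.Gx (pos S) F (2 * a) by omega]
    exact h1

/-- The extremal semigroups. -/
def extremal (a A : ℕ) : Set ℕ := {x | x = 0 ∨ (a ≤ x ∧ x < a + A) ∨ 2 * a ≤ x}

lemma attained {g b : ℕ} (h : 2 * b ≤ g) :
    ∃ S, IsNumSemigroup S ∧ genus S = g ∧ beta S = b ∧ ew S = b * (g + 1 - 2 * b) := by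
  obtain ⟨A, hA⟩ : ∃ A, A = g + 1 - 2 * b := ⟨_, rfl⟩
  obtain ⟨a, ha⟩ : ∃ a, a = A + b := ⟨_, rfl⟩
  have hS : IsNumSemigroup (extremal a A) := by
    refine ⟨Or.inl rfl, ?_, ?_⟩
    · rintro x (hx | hx | hx) y (hy | hy | hy)
      · exact Or.inl (by omega)
      · exact Or.inr (Or.inl (by omega))
      · exact Or.inr (Or.inr (by omega))
      · exact Or.inr (Or.inl (by omega))
      · exact Or.inr (Or.inr (by omega))
      · exact Or.inr (Or.inr (by omega))
      · exact Or.inr (Or.inr (by omega))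
      · exact Or.inr (Or.inr (by omega))
      · exact Or.inr (Or.inr (by omega))
    · apply (Set.finite_Iio (2 * a)).subset
      intro y hy
      rw [Set.mem_Iio]
      by_contra hcon
      exact hy (Or.inr (Or.inr (by omega)))
  have hpos : pos (extremal a A) = Eff.Iv a A := by
    ext x
    constructor
    · rintro ⟨h1 | h1 | h1, h2⟩
      · exact absurd h1 h2
      · exact Or.inl h1
      · exact Or.inr h1
    · rintro (h1 | h1)
      · exact ⟨Or.inr (Or.inl h1), by omega⟩
      · exact ⟨Or.inr (Or.inr h1), by omega⟩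
  have hgen : genus (extremal a A) = g := by
    have := Eff.Iv_genus (a := a) (A := A) (by omega) (by omega)
    rw [← hpos, genus_pos hS] at this
    omega
  have hmult : mult (extremal a A) = a := by
    have h1 : a ∈ {x | x ∈ extremal a A ∧ x ≠ 0} := ⟨Or.inr (Or.inl (by omega)), by omega⟩
    have h2 : mult (extremal a A) ≤ a := Nat.sInf_le h1
    obtain ⟨h3, h4⟩ : mult (extremal a A) ∈ {x | x ∈ extremal a A ∧ x ≠ 0} := Nat.sInf_mem ⟨a, h1⟩
    rcases h3 with h3 | h3 | h3 <;> omega
  have hbeta : beta (extremal a A) = b := by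
    rw [beta, hmult]
    have h1 : {y | y ∉ extremal a A ∧ a < y ∧ y < 2 * a} = ↑(Finset.Ico (a + A) (2 * a)) := by
      ext y
      rw [Finset.mem_coe, Finset.mem_Ico]
      constructor
      · rintro ⟨h1, h2, h3⟩
        refine ⟨?_, h3⟩
        by_contra hcon
        exact h1 (Or.inr (Or.inl (by omega)))
      · rintro ⟨h1, h2⟩
        refine ⟨?_, by omega, h2⟩
        rintro (h3 | h3 | h3) <;> omega
    rw [h1, Set.ncard_coe_finset, Nat.card_Ico]
    omega
  have hew := Eff.Iv_weight (a := a) (A := A) (by omega) (by omega)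
  rw [← hpos, ew_pos hS] at hew
  have hup := (bound hS).2
  rw [hbeta, hgen, ← hA] at hup
  refine ⟨extremal a A, hS, hgen, hbeta, ?_⟩
  have e1 : a - A = b := by omega
  rw [e1, mul_comm] at hew
  rw [← hA]
  exact le_antisymm hup hew

end transfer

/-- **The maximal effective weight.**  Every numerical semigroup `S` of genus `g` satisfies
`ew S ≤ ⌊(g + 1)² / 8⌋`.  More precisely, if `b` is the number of gaps strictly between the
multiplicity and its double, then `2 b ≤ g`, and for all `2 b ≤ g` the maximum of the effective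
weight over the semigroups with these two parameters is exactly `b (g + 1 - 2 b)`. -/
theorem result :
    (∀ S : Set ℕ, IsNumSemigroup S → 2 * beta S ≤ genus S ∧ ew S ≤ (genus S + 1) ^ 2 / 8) ∧
    (∀ g b : ℕ, 2 * b ≤ g →
      IsGreatest {w | ∃ S : Set ℕ, IsNumSemigroup S ∧ genus S = g ∧ beta S = b ∧ ew S = w}
        (b * (g + 1 - 2 * b))) := by
  constructor
  · intro S hS
    obtain ⟨h1, h2⟩ := bound hS
    refine ⟨h1, ?_⟩
    obtain ⟨A, hA⟩ : ∃ A, genus S + 1 = 2 * beta S + A := ⟨genus S + 1 - 2 * beta S, by omega⟩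
    rw [hA, Nat.add_sub_cancel_left] at h2
    rw [Nat.le_div_iff_mul_le (by norm_num), hA]
    have h3 : (0 : ℤ) ≤ ((A : ℤ) - 2 * beta S) ^ 2 := sq_nonneg _
    have h4 : 8 * (beta S * A) ≤ (2 * beta S + A) ^ 2 := by
      zify
      nlinarith
    omega
  · intro g b hgb
    refine ⟨attained hgb, ?_⟩
    rintro w ⟨S, hS, rfl, rfl, rfl⟩
    exact (bound hS).2

end Pool.Agent.Results.MP_7689c7_co.TwoParameterMaximum
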